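import Mathlib
import Pool.Agent.KS6_89.ZL.Bad
import Pool.Agent.KS6_89.ZL.Bnd
import Pool.Agent.KS6_89.ZL.Cov
import Pool.Agent.KS6_89.ZL.Zsix

/-!
# The Liouville property for graphs with a `ℤ`-action: the answer for every quotient graph

For each connected locally finite graph `H` we decide whether the question has a positive answer
for the graphs `G` with `G / ℤ = H`: it has, except when `H` is Liouville, transient and not a tree,
and then there is a counterexample `G` over `H`, with a connected fundamental domain `D`, whose
bounded harmonic functions are the bounded functions on `ℤ`. Moreover `G` is Liouville for every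
free `ℤ`-action with recurrent quotient.

Construction: `H` transient and Liouville, `v` its Green function. The sets `{v ≥ t}` and `{v < t}`
are connected, and there are finite sets `K_0 ⊂ K_1 ⊂ ...` such that the differences `A_i` of the
components of the complements where `v` is small are connected; between `A_i` and `A_{i+1}` there
is an edge which the walk crosses with a small probability. The cover `G` has nonzero labels on
these edges and on an edge of a cycle only, so that the walk stays on one sheet from some time on;
`D` jumps from one sheet to the other between `A_i` and `A_{i+1}`.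

The definitions are in `Pool/Agent/KS6_89/ZL/Defs.lean`.
-/

set_option autoImplicit false

namespace Pool.Agent.Results.MP_09df17_pr.AllQuotients

open Pool.Agent.KS6_89.ZL

/-- (1) A connected graph with a free `ℤ`-action whose quotient is recurrent (not transient) is
Liouville.
(2) For a connected locally finite graph `H` there is a counterexample to Q1 with quotient graph
`H` if and only if `H` is Liouville, transient and not a tree.
(3) In this case there is one for which moreover the fundamental domain is connected and the space
of bounded harmonic functions is the space of bounded functions on `ℤ`.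
(4) Such graphs `H` exist (for example the lattice `ℤ^6`), so that Q1 has a negative answer. -/
theorem result :
    (∀ (V : Type) (G : SimpleGraph V) [G.LocallyFinite] [AddAction ℤ V], G.Connected →
      ActsFreely G → ¬ QuotientTransient G → Liouville G) ∧
    (∀ (W : Type) (H : SimpleGraph W) [H.LocallyFinite], H.Connected →
      ((∃ (V : Type) (G : SimpleGraph V) (_ : G.LocallyFinite) (_ : AddAction ℤ V) (π : V → W)
        (D : Set V), IsCounterexample G H π D) ↔ Liouville H ∧ Transient H ∧ ¬ H.IsAcyclic) ∧
      (Liouville H ∧ Transient H ∧ ¬ H.IsAcyclic →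
        ∃ (V : Type) (G : SimpleGraph V) (_ : G.LocallyFinite) (_ : AddAction ℤ V) (π : V → W)
          (D : Set V), IsCounterexample G H π D ∧ (G.induce D).Connected ∧ BoundaryIsZ G)) ∧
    ∃ (W : Type) (H : SimpleGraph W) (_ : H.LocallyFinite), H.Connected ∧ Liouville H ∧
      Transient H ∧ ¬ H.IsAcyclic := by
  have h3 : ∀ (W : Type) (H : SimpleGraph W) [H.LocallyFinite], H.Connected →
      Liouville H ∧ Transient H ∧ ¬ H.IsAcyclic →
        ∃ (V : Type) (G : SimpleGraph V) (_ : G.LocallyFinite) (_ : AddAction ℤ V) (π : V → W)
          (D : Set V), IsCounterexample G H π D ∧ (G.induce D).Connected ∧ BoundaryIsZ G := by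
    intro W H _ hc h
    obtain ⟨hL, ht, hac⟩ := h
    obtain ⟨ℓ, hℓ, g, htau, hGc, hvis, hDc⟩ := exists_bad H hc hL ht hac
    obtain ⟨x₀⟩ := hc.nonempty
    have hd : PosDeg H := by
      have hnt : Nontrivial W := by
        by_contra hno
        rw [not_nontrivial_iff_subsingleton] at hno
        exact hac SimpleGraph.IsAcyclic.of_subsingleton
      exact fun x => hc.preconnected.degree_pos_of_nontrivial x
    exact ⟨W × ℤ, tw H ℓ hℓ, inferInstance, act W, Prod.fst, {v | v.2 = g v.1},
      ⟨hGc, tw_actsFreely H hℓ, tw_cover H hℓ, tw_quotientLiouville H hℓ hL, tw_fund g, hvis,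
        tw_not_liouville H hℓ hd x₀ htau⟩, hDc, boundary H hℓ hd htau hL x₀⟩
  refine ⟨fun V G _ _ hc ha hr => liouville_of_recurrent hc ha hr, fun W H _ hc => ⟨⟨?_, ?_⟩, ?_⟩,
    _, lat, inferInstance, lat_connected, lat_liouville, lat_transient, lat_not_acyclic⟩
  · rintro ⟨V, G, i1, i2, π, D, hGc, ha, hπ, hQL, -, -, hnL⟩
    refine ⟨cover_liouville hπ hQL, ?_, cover_not_acyclic hGc ha.2 hπ⟩
    refine cover_transient hπ ?_
    by_contra hr
    exact hnL (liouville_of_recurrent hGc ha hr)
  · intro h
    obtain ⟨V, G, i1, i2, π, D, h1, -, -⟩ := h3 W H hc h
    exact ⟨V, G, i1, i2, π, D, h1⟩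
  · exact h3 W H hc

end Pool.Agent.Results.MP_09df17_pr.AllQuotients
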